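import Pool.Agent.Q201.ML.Lq

/-!
# Montgomery's `ℓ^q` inequality over sumsets and over sets with many almost periods

Q1 asks for `∑_{1 ≤ t ≤ T} |D(t)|^q ≤ C N^ε (N^q + T N^(q/2))`, `D(t) = ∑_{N ≤ n ≤ 2N} b_n n^{it}`,
`|b_n| ≤ 1`, `N ≤ T ≤ N^A`. Let `k ≥ 2`, `J ≥ 1` be integers, `η = (J k - A) / (2^k - 2)` and
`δ = N^(-2η)`.

* For ARBITRARY finite sets `X, Y` of integers of `[-N^A, N^A]`:
  `∑_{x ∈ X, y ∈ Y} |D(x+y)|^(2J) ≤ C N^(2J+ε) (|X| + δ |X|²)^(1/2) (|Y| + δ |Y|²)^(1/2)`.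
* Let `W` and `H ≠ ∅` be finite sets of integers of `[-N^A, N^A]` such that for every `t ∈ W` at
  least `|H|/K` of the numbers `t - h`, `h ∈ H`, belong to `W`. Then for all real `q ≥ 2J`
  `∑_{t ∈ W} |D(t)|^q ≤ 2^q C K N^(q+ε) ((|W|/|H|) (1 + δ|W|) (1 + δ|H|))^(1/2)`.
  In particular, if `|W| ≤ K |H|` and `|W|, |H| ≤ N^(2η)`, the inequality of Q1 holds for the
  points of `W`, without the second term: `∑_{t ∈ W} |D(t)|^q ≤ 2^(q+1) C K^(3/2) N^(q+ε)`.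

For `k = 2` the condition on the sizes is `|W|, |H| ≤ N^(2J - A)`; the large sieve for the
polynomial `D^J` gives this bound for arbitrary `W` only if `A ≤ J`.
-/

set_option autoImplicit false

namespace Pool.Agent.Results.MP_2a1f0e_nt.AlmostPeriodicSets

open Finset

/-- `D(t) = ∑_{N ≤ n ≤ 2N} b_n n^{it}` -/
noncomputable def D (N : ℕ) (b : ℕ → ℂ) (t : ℝ) : ℂ :=
  ∑ n ∈ Icc N (2 * N), b n * Complex.exp (((t * Real.log (n : ℝ) : ℝ) : ℂ) * Complex.I)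

/-- `η = (J k - A) / (2^k - 2)` -/
noncomputable def eta (A : ℝ) (k J : ℕ) : ℝ := ((J : ℝ) * k - A) / (2 ^ k - 2)

theorem result (A : ℝ) (k : ℕ) (hk : 2 ≤ k) (J : ℕ) (hJ : 1 ≤ J) (ε : ℝ) (hε : 0 < ε) :
    ∃ C : ℝ, 1 ≤ C ∧ ∀ (N : ℕ) (b : ℕ → ℂ), 1 ≤ N → (∀ n, ‖b n‖ ≤ 1) →
      (∀ X Y : Finset ℤ, (∀ x ∈ X, |(x : ℝ)| ≤ (N : ℝ) ^ A) →
        (∀ y ∈ Y, |(y : ℝ)| ≤ (N : ℝ) ^ A) →
        ∑ z ∈ X ×ˢ Y, ‖D N b ((z.1 : ℝ) + z.2)‖ ^ (2 * J) ≤ C * (N : ℝ) ^ (2 * J + ε) *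
          (√(X.card + (N : ℝ) ^ (-(2 * eta A k J)) * (X.card : ℝ) ^ 2) *
            √(Y.card + (N : ℝ) ^ (-(2 * eta A k J)) * (Y.card : ℝ) ^ 2))) ∧
      (∀ (W H : Finset ℤ) (K q : ℝ), 1 ≤ K → 2 * J ≤ q →
        (∀ t ∈ W, |(t : ℝ)| ≤ (N : ℝ) ^ A) → (∀ h ∈ H, |(h : ℝ)| ≤ (N : ℝ) ^ A) → H.Nonempty →
        (∀ t ∈ W, (H.card : ℝ) ≤ K * ((H.filter fun h => t - h ∈ W).card : ℝ)) →
        (∑ t ∈ W, ‖D N b t‖ ^ q ≤ 2 ^ q * C * K * (N : ℝ) ^ (q + ε) *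
          √((W.card / H.card) * ((1 + (N : ℝ) ^ (-(2 * eta A k J)) * W.card) *
            (1 + (N : ℝ) ^ (-(2 * eta A k J)) * H.card)))) ∧
        ((W.card : ℝ) ≤ K * H.card → (W.card : ℝ) ≤ (N : ℝ) ^ (2 * eta A k J) →
          (H.card : ℝ) ≤ (N : ℝ) ^ (2 * eta A k J) →
          ∑ t ∈ W, ‖D N b t‖ ^ q ≤ 2 ^ (q + 1) * C * (K * √K) * (N : ℝ) ^ (q + ε))) :=
  Pool.Agent.Q201.ML.lq_periods A k hk J hJ ε hε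

end Pool.Agent.Results.MP_2a1f0e_nt.AlmostPeriodicSets
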