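import Pool.Agent.Q229.LQ.Base
import Pool.Agent.Y959.Gen.Asym

set_option autoImplicit false

/-!
# Montgomery's `ℓ^q` inequality on generic linear images of arbitrary configurations

Q1 asks for `∑_{1 ≤ t ≤ T} |D(t)|^q ≤ C N^ε (N^q + T N^(q/2))`, `D(t) = ∑_{N ≤ n ≤ 2N} b_n n^{it}`, `|b_n| ≤ 1`.
Let `W` be an ARBITRARY finite set of at most `N ^ A` integer vectors in any dimension `d`, with coordinates at most
`B`, and let `s_a` be arbitrary real shifts. For all `x` in the box `[Λ, 2Λ]^d`, outside a set of relative measure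
`N ^ (-C)`, the inequality of Q1 holds for the points `x·a + s_a`, `a ∈ W`, with `|W|` in place of `T`, for ALL
coefficients: for all even exponents `q`, and for all real `q` which do not lie strictly between `2 j` and `2 j + 2`,
where `N ^ j < |W| < N ^ (j + 1)`. In particular it holds for all real `q ≥ 2` if `|W|` is a power of `N`. Here `Λ` is
any number at least `K (2 N) ^ (k (B + 1))`.
-/

namespace Pool.Agent.Results.MP_2a1f0e_nt.GenericLinearImages

open Finset MeasureTheory Pool.Agent.Q229.LQ Pool.Agent.TH705.DL Pool.Agent.Y959.Her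

/-- `D(t) = ∑_{N ≤ n ≤ 2N} b_n n^{it}` -/
noncomputable def D (N : ℕ) (b : ℕ → ℂ) (t : ℝ) : ℂ :=
  ∑ n ∈ Icc N (2 * N), b n * Complex.exp (Complex.I * (t : ℂ) * (Real.log (n : ℝ) : ℂ))

/-- The point `x·a + s_a` of the real line. -/
noncomputable def point {d : ℕ} (s : (Fin d → ℤ) → ℝ) (x : Fin d → ℝ) (a : Fin d → ℤ) : ℝ :=
  (∑ i, (a i : ℝ) * x i) + s a

/-- **Main theorem.** -/
theorem result (ε A C : ℝ) (hε : 0 < ε) (hA : 0 ≤ A) (hC : 0 ≤ C) :
    ∃ (k : ℕ) (K : ℝ), 1 ≤ K ∧ ∀ N : ℕ, 1 ≤ N →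
      ∀ (d B : ℕ) (W : Finset (Fin d → ℤ)) (s : (Fin d → ℤ) → ℝ) (Λ : ℝ),
        (∀ a ∈ W, ∀ i, |a i| ≤ B) → (W.card : ℝ) ≤ (N : ℝ) ^ A →
        K * (2 * N : ℝ) ^ (k * (B + 1)) ≤ Λ →
        ∃ E : Set (Fin d → ℝ), MeasurableSet E ∧
          volume E ≤ ENNReal.ofReal ((N : ℝ) ^ (-C) * Λ ^ d) ∧
          ∀ x : Fin d → ℝ, (∀ i, x i ∈ Set.Icc Λ (2 * Λ)) → x ∉ E → ∀ b : ℕ → ℂ,
            (∀ n ∈ Icc N (2 * N), ‖b n‖ ≤ 1) → ∀ j : ℕ, 1 ≤ j → (j : ℝ) ≤ A + 1 →
              ∑ a ∈ W, ‖D N b (point s x a)‖ ^ (2 * j) ≤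
                  K * (N : ℝ) ^ ε * ((N : ℝ) ^ (2 * j) + W.card * (N : ℝ) ^ j) ∧
              ∀ q : ℝ, 0 < q →
                (2 * j ≤ q ∧ (W.card : ℝ) ≤ (N : ℝ) ^ j ∨ q ≤ 2 * j ∧ (N : ℝ) ^ j ≤ W.card) →
                ∑ a ∈ W, ‖D N b (point s x a)‖ ^ q ≤
                  2 ^ q * K * (N : ℝ) ^ ε * ((N : ℝ) ^ q + W.card * (N : ℝ) ^ (q / 2)) := by
  classical
  set J : ℕ := ⌊A⌋₊ + 1 with hJ
  have hJ1 : 1 ≤ J := by omega
  have hJr : (1 : ℝ) ≤ J := by exact_mod_cast hJ1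
  set ε' : ℝ := ε / (J + 1) with hε'
  have hε'0 : 0 < ε' := by positivity
  obtain ⟨k, K₀, hK₀, hmain⟩ := Pool.Agent.Y959.Gen.asym ε' A (C + J) hε'0 hA
  obtain ⟨Kp, hKp, hpw⟩ := pw_bound ε' hε'0 J
  have h2ε : (1 : ℝ) ≤ 2 ^ ε := Real.one_le_rpow (by norm_num) hε.le
  have h2J : (1 : ℝ) ≤ 2 ^ J := one_le_pow₀ (by norm_num)
  set F : ℝ := K₀ * Kp * 2 ^ ε * 2 ^ J with hF
  have hF1 : 1 ≤ F :=
    one_le_mul_of_one_le_of_one_le (one_le_mul_of_one_le_of_one_le (one_le_mul_of_one_le_of_one_le hK₀ hKp) h2ε) h2J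
  refine ⟨⌈(J : ℝ) * k * (1 + A)⌉₊, 2 * F, by linarith, ?_⟩
  intro N hN d B W s Λ hB hW hΛ
  have hN1 : (1 : ℝ) ≤ N := by exact_mod_cast hN
  have hN0 : (0 : ℝ) < N := by linarith
  have h2N : (1 : ℝ) ≤ 2 * N := by linarith
  have hΛ0 : 0 ≤ Λ := le_trans (by positivity) hΛ
  have hK₀F : K₀ ≤ 2 * F := by
    have h1 : K₀ ≤ F := by
      rw [hF, mul_assoc, mul_assoc]
      exact le_mul_of_one_le_right (by linarith)
        (one_le_mul_of_one_le_of_one_le hKp (one_le_mul_of_one_le_of_one_le h2ε h2J))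
    linarith
  -- the exceptional sets
  have hex : ∀ j : ℕ, j ∈ Icc 1 J → ∃ E : Set (Fin d → ℝ), MeasurableSet E ∧
      volume E ≤ ENNReal.ofReal ((((2 * N) ^ j : ℕ) : ℝ) ^ (-(C + J)) * Λ ^ d) ∧
      ∀ x : Fin d → ℝ, (∀ i, x i ∈ Set.Icc Λ (2 * Λ)) → x ∉ E → ∀ b : ℕ → ℂ,
        ∑ a ∈ W, ‖∑ n ∈ Icc 1 ((2 * N) ^ j), b n *
          Complex.exp (Complex.I * (((∑ i, (a i : ℝ) * x i) + s a : ℝ) : ℂ) *
            (Real.log (n : ℝ) : ℂ))‖ ^ 2 ≤
          K₀ * (((2 * N) ^ j : ℕ) : ℝ) ^ ε' * (((Icc 1 ((2 * N) ^ j)).card : ℝ) + W.card) *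
            ∑ n ∈ Icc 1 ((2 * N) ^ j), ‖b n‖ ^ 2 := by
    intro j hj
    rw [mem_Icc] at hj
    have hM1 : 1 ≤ (2 * N) ^ j := Nat.one_le_pow _ _ (by omega)
    have hNM : (N : ℝ) ≤ (((2 * N) ^ j : ℕ) : ℝ) := by
      have h1 : N ≤ (2 * N) ^ j := by
        calc N ≤ 2 * N := by omega
          _ = (2 * N) ^ 1 := (pow_one _).symm
          _ ≤ (2 * N) ^ j := Nat.pow_le_pow_right (by omega) hj.1
      exact_mod_cast h1
    apply hmain ((2 * N) ^ j) hM1 (Icc 1 ((2 * N) ^ j)) (fun n hn => mem_Icc.1 hn) d B W s Λ hB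
    · exact hW.trans (Real.rpow_le_rpow hN0.le hNM hA)
    · refine le_trans ?_ hΛ
      apply mul_le_mul hK₀F _ (by positivity) (by positivity)
      rw [Nat.cast_pow, Nat.cast_mul, Nat.cast_ofNat, ← Real.rpow_natCast (2 * (N : ℝ)) j,
        ← Real.rpow_mul (by linarith), ← Real.rpow_natCast]
      apply Real.rpow_le_rpow_of_exponent_le h2N
      have hjJ : (j : ℝ) ≤ J := by exact_mod_cast hj.2
      have h1 : (j : ℝ) * (k * (B + 1 + A)) ≤ J * k * (1 + A) * (B + 1) := by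
        have h2 : (B : ℝ) + 1 + A ≤ (1 + A) * (B + 1) := by
          have : (0 : ℝ) ≤ B := Nat.cast_nonneg _
          nlinarith
        have h3 : (k : ℝ) * (B + 1 + A) ≤ k * ((1 + A) * (B + 1)) :=
          mul_le_mul_of_nonneg_left h2 (Nat.cast_nonneg _)
        calc (j : ℝ) * (k * (B + 1 + A)) ≤ J * (k * ((1 + A) * (B + 1))) :=
              mul_le_mul hjJ h3 (by positivity) (by positivity)
          _ = _ := by ring
      refine h1.trans ?_
      push_cast
      exact mul_le_mul_of_nonneg_right (Nat.le_ceil _) (by positivity)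
  choose! E hE1 hE2 hE3 using hex
  refine ⟨⋃ j ∈ Icc 1 J, E j, Finset.measurableSet_biUnion _ hE1, ?_, ?_⟩
  · refine (measure_biUnion_finset_le _ _).trans ?_
    have hbd : ∀ j ∈ Icc 1 J, volume (E j) ≤ ENNReal.ofReal ((N : ℝ) ^ (-C) * Λ ^ d / J) := by
      intro j hj
      refine (hE2 j hj).trans (ENNReal.ofReal_le_ofReal ?_)
      rw [mem_Icc] at hj
      rw [mul_div_right_comm]
      apply mul_le_mul_of_nonneg_right _ (pow_nonneg hΛ0 d)
      have h1 : (2 * N : ℝ) ≤ (((2 * N) ^ j : ℕ) : ℝ) := by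
        have h1 : 2 * N ≤ (2 * N) ^ j := by
          calc 2 * N = (2 * N) ^ 1 := (pow_one _).symm
            _ ≤ (2 * N) ^ j := Nat.pow_le_pow_right (by omega) hj.1
        exact_mod_cast h1
      calc (((2 * N) ^ j : ℕ) : ℝ) ^ (-(C + J)) ≤ (2 * N : ℝ) ^ (-(C + J)) :=
            Real.rpow_le_rpow_of_nonpos (by linarith) h1 (by linarith)
        _ = 2 ^ (-(C + J)) * (N : ℝ) ^ (-(C + J)) := Real.mul_rpow (by norm_num) hN0.le
        _ ≤ (1 / J) * (N : ℝ) ^ (-C) := by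
            apply mul_le_mul _ _ (by positivity) (by positivity)
            · rw [Real.rpow_neg (by norm_num), ← one_div]
              apply one_div_le_one_div_of_le (by linarith)
              calc (J : ℝ) ≤ 2 ^ J := by exact_mod_cast Nat.lt_two_pow_self.le
                _ = (2 : ℝ) ^ (J : ℝ) := (Real.rpow_natCast _ _).symm
                _ ≤ 2 ^ (C + J) := Real.rpow_le_rpow_of_exponent_le (by norm_num) (by linarith)
            · exact Real.rpow_le_rpow_of_exponent_le hN1 (by linarith)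
        _ = (N : ℝ) ^ (-C) / J := by ring
    refine (Finset.sum_le_sum hbd).trans ?_
    rw [sum_const, Nat.card_Icc, Nat.add_sub_cancel, nsmul_eq_mul, ← ENNReal.ofReal_natCast,
      ← ENNReal.ofReal_mul (Nat.cast_nonneg _)]
    apply ENNReal.ofReal_le_ofReal
    rw [mul_div_cancel₀]
    linarith
  · intro x hx hxE b hb j hj1 hjA
    have hjJ : j ≤ J := by
      have h1 : (j : ℝ) < J + 1 := by
        have := Nat.lt_floor_add_one A
        rw [hJ]
        push_cast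
        linarith
      have h2 : j < J + 1 := by exact_mod_cast h1
      omega
    have hjI : j ∈ Icc 1 J := mem_Icc.2 ⟨hj1, hjJ⟩
    have hxj : x ∉ E j := fun h => hxE (Set.mem_biUnion hjI h)
    have h1 := hE3 j hjI x hx hxj (pw (2 * N) (cut N b) j)
    have e1 : ∀ t : ℝ, ∑ n ∈ Icc 1 ((2 * N) ^ j), pw (2 * N) (cut N b) j n *
        Complex.exp (Complex.I * (t : ℂ) * (Real.log (n : ℝ) : ℂ)) = D N b t ^ j := by
      intro t
      have h2 := pow_eq (2 * N) (cut N b) t j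
      rw [DP_cut N hN b t] at h2
      exact h2.symm
    have hev : ∑ a ∈ W, ‖D N b (point s x a)‖ ^ (2 * j) ≤
        F * (N : ℝ) ^ ε * ((N : ℝ) ^ (2 * j) + W.card * (N : ℝ) ^ j) := by
      have e2 : ∀ a, ‖D N b (point s x a)‖ ^ (2 * j) = ‖∑ n ∈ Icc 1 ((2 * N) ^ j), pw (2 * N) (cut N b) j n *
          Complex.exp (Complex.I * (((∑ i, (a i : ℝ) * x i) + s a : ℝ) : ℂ) *
            (Real.log (n : ℝ) : ℂ))‖ ^ 2 := by
        intro a
        rw [e1, norm_pow, ← pow_mul, mul_comm j 2]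
        rfl
      rw [sum_congr rfl fun a _ => e2 a]
      refine h1.trans ?_
      have h3 := hpw N hN b hb j hjJ
      rw [Nat.card_Icc, Nat.add_sub_cancel]
      have h4 : (((2 * N) ^ j : ℕ) : ℝ) ^ ε' ≤ 2 ^ ε * (N : ℝ) ^ (ε - ε') := by
        rw [Nat.cast_pow, Nat.cast_mul, Nat.cast_ofNat, ← Real.rpow_natCast (2 * (N : ℝ)) j,
          ← Real.rpow_mul (by linarith), Real.mul_rpow (by norm_num) hN0.le]
        have hjJr : (j : ℝ) ≤ J := by exact_mod_cast hjJ
        have h5 : (j : ℝ) * ε' ≤ ε - ε' := by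
          have h6 : ε' * (J + 1) = ε := by rw [hε']; field_simp
          nlinarith
        apply mul_le_mul
        · exact Real.rpow_le_rpow_of_exponent_le (by norm_num) (by linarith)
        · exact Real.rpow_le_rpow_of_exponent_le hN1 h5
        · positivity
        · positivity
      have h5 : ((((2 * N) ^ j : ℕ) : ℝ) + W.card) ≤ 2 ^ J * ((N : ℝ) ^ j + W.card) := by
        push_cast
        rw [mul_pow, mul_add]
        apply add_le_add
        · exact mul_le_mul_of_nonneg_right (pow_le_pow_right₀ (by norm_num) hjJ) (by positivity)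
        · exact le_mul_of_one_le_left (Nat.cast_nonneg _) h2J
      calc K₀ * (((2 * N) ^ j : ℕ) : ℝ) ^ ε' * ((((2 * N) ^ j : ℕ) : ℝ) + W.card) *
            ∑ n ∈ Icc 1 ((2 * N) ^ j), ‖pw (2 * N) (cut N b) j n‖ ^ 2
          ≤ K₀ * (2 ^ ε * (N : ℝ) ^ (ε - ε')) * (2 ^ J * ((N : ℝ) ^ j + W.card)) *
            (Kp * (N : ℝ) ^ ε' * (N : ℝ) ^ j) := by
            apply mul_le_mul _ h3 (sum_nonneg fun _ _ => by positivity) (by positivity)
            apply mul_le_mul _ h5 (by positivity) (by positivity)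
            exact mul_le_mul_of_nonneg_left h4 (by linarith)
        _ = F * ((N : ℝ) ^ (ε - ε') * (N : ℝ) ^ ε') * (((N : ℝ) ^ j + W.card) * (N : ℝ) ^ j) := by
            rw [hF]
            ring
        _ = F * (N : ℝ) ^ ε * ((N : ℝ) ^ (2 * j) + W.card * (N : ℝ) ^ j) := by
            rw [← Real.rpow_add hN0]
            have e3 : ε - ε' + ε' = ε := by ring
            have e4 : (N : ℝ) ^ (2 * j) = (N : ℝ) ^ j * (N : ℝ) ^ j := by rw [← pow_add]; congr 1; ring
            rw [e3, e4]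
            ring
    have hNε : (1 : ℝ) ≤ (N : ℝ) ^ ε := Real.one_le_rpow hN1 hε.le
    refine ⟨?_, ?_⟩
    · refine hev.trans ?_
      apply mul_le_mul_of_nonneg_right _ (by positivity)
      apply mul_le_mul_of_nonneg_right _ (by positivity)
      linarith
    · intro q hq hcase
      have h6 := from_even W (fun a => ‖D N b (point s x a)‖) (fun _ => norm_nonneg _) N hN
        (fun a _ => D_le N hN b hb _) j hj1 (F * (N : ℝ) ^ ε) (one_le_mul_of_one_le_of_one_le hF1 hNε) hev q hq hcase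
      refine h6.trans (le_of_eq ?_)
      ring

end Pool.Agent.Results.MP_2a1f0e_nt.GenericLinearImages
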