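import Pool.Agent.Q229.LQ.Trans

set_option autoImplicit false

/-!
# Montgomery's `ℓ^q` inequality for points in independently translated pieces

Q1 asks for `∑_{1 ≤ t ≤ T} |D(t)|^q ≤ C N^ε (N^q + T N^(q/2))`, `D(t) = ∑_{N ≤ n ≤ 2N} b_n n^{it}`, `|b_n| ≤ 1`.
Take ARBITRARY finite `1`-separated sets `P_i` of reals, each in an interval of length `N ^ l` (for instance pieces of
`{1, ..., T}`), with `R` points altogether, and translate them independently by `u_i ∈ [0, h]`, `h ≥ N ^ J`. For all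
vectors `u` outside a set of measure `N ^ (-C) h ^ |ι|` the inequality of Q1 holds for the points `t + u_i`, `t ∈ P_i`,
with `R` in place of `T`, for ALL coefficients: for the even exponents `2 j`, `l ≤ j ≤ J`, and for all real `q` with
`q ≥ 2 j`, `R ≤ N ^ j` or `q ≤ 2 j`, `N ^ j ≤ R` for such a `j`.
-/

namespace Pool.Agent.Results.MP_2a1f0e_nt.IndependentTranslations

open Finset MeasureTheory Pool.Agent.Q229.LQ Pool.Agent.TH705.DL Pool.Agent.Y959.Her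

/-- `D(t) = ∑_{N ≤ n ≤ 2N} b_n n^{it}` -/
noncomputable def D (N : ℕ) (b : ℕ → ℂ) (t : ℝ) : ℂ :=
  ∑ n ∈ Icc N (2 * N), b n * Complex.exp (Complex.I * (t : ℂ) * (Real.log (n : ℝ) : ℂ))

lemma log_pow_le (η : ℝ) (hη : 0 < η) : ∃ K : ℝ, 1 ≤ K ∧ ∀ N : ℕ, 1 ≤ N →
    (1 + Real.log (2 * N)) ^ 4 ≤ K * (N : ℝ) ^ η := by
  have hη4 : 0 < η / 4 := by positivity
  refine ⟨(1 + 2 ^ (η / 4) / (η / 4)) ^ 4, one_le_pow₀ (by
    have : (0 : ℝ) ≤ 2 ^ (η / 4) / (η / 4) := by positivity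
    linarith), ?_⟩
  intro N hN
  have hN1 : (1 : ℝ) ≤ N := by exact_mod_cast hN
  have hN0 : (0 : ℝ) < N := by linarith
  have h1 : Real.log (2 * N) ≤ (2 * N : ℝ) ^ (η / 4) / (η / 4) := Real.log_le_rpow_div (by linarith) hη4
  rw [Real.mul_rpow (by norm_num) hN0.le] at h1
  have h2 : (1 : ℝ) ≤ (N : ℝ) ^ (η / 4) := Real.one_le_rpow hN1 hη4.le
  have h3 : 1 + Real.log (2 * N) ≤ (1 + 2 ^ (η / 4) / (η / 4)) * (N : ℝ) ^ (η / 4) := by
    have e : (2 : ℝ) ^ (η / 4) * (N : ℝ) ^ (η / 4) / (η / 4) = 2 ^ (η / 4) / (η / 4) * (N : ℝ) ^ (η / 4) := by ring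
    rw [e] at h1
    linarith
  have h0 : 0 ≤ Real.log (2 * N) := Real.log_nonneg (by linarith)
  calc (1 + Real.log (2 * N)) ^ 4 ≤ ((1 + 2 ^ (η / 4) / (η / 4)) * (N : ℝ) ^ (η / 4)) ^ 4 :=
        pow_le_pow_left₀ (by linarith) h3 4
    _ = (1 + 2 ^ (η / 4) / (η / 4)) ^ 4 * (N : ℝ) ^ η := by
        rw [mul_pow, ← Real.rpow_natCast ((N : ℝ) ^ (η / 4)) 4, ← Real.rpow_mul hN0.le]
        congr 2
        push_cast
        ring

lemma aux {R M P x l lam A B G : ℝ} (hR : 0 ≤ R) (hP : 0 ≤ P) (hA : 0 ≤ A) (hB : 0 ≤ B) (hG : 0 ≤ G)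
    (hx : x ≤ A) (hM : M ≤ G * P) (hl0 : 0 ≤ l) (hl : l ≤ B * lam) (hlam : 1 ≤ lam) :
    R * x + M * l ≤ (A + G * B) * lam * (P + R) := by
  have hlam0 : 0 ≤ lam := by linarith
  have c1 : R * x ≤ A * lam * R := by
    calc R * x ≤ R * A := mul_le_mul_of_nonneg_left hx hR
      _ ≤ R * A * lam := le_mul_of_one_le_right (mul_nonneg hR hA) hlam
      _ = _ := by ring
  have c2 : M * l ≤ (G * P) * (B * lam) := mul_le_mul hM hl hl0 (mul_nonneg hG hP)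
  have c3 : 0 ≤ A * lam * P := by positivity
  have c4 : 0 ≤ G * B * lam * R := by positivity
  calc R * x + M * l ≤ A * lam * R + (G * P) * (B * lam) := add_le_add c1 c2
    _ ≤ A * lam * R + (G * P) * (B * lam) + (A * lam * P + G * B * lam * R) := by linarith
    _ = _ := by ring

lemma aux2 {L1 J1 lam Y c P R S n2 Kl Kp : ℝ} (h0 : 0 ≤ L1) (h1 : L1 ≤ J1 * lam) (hY0 : 0 ≤ Y)
    (hY : Y ≤ c * lam * (P + R)) (hS0 : 0 ≤ S) (hS : S ≤ Kp * n2 * P) (hl : lam ^ 4 ≤ Kl * n2) (hP : 0 ≤ P)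
    (hR : 0 ≤ R) (hn : 0 ≤ n2) (hKp : 0 ≤ Kp) (hJ1 : 0 ≤ J1) (hlam : 0 ≤ lam) (hc : 0 ≤ c) :
    12 * L1 ^ 3 * Y * S ≤ 12 * J1 ^ 3 * c * Kl * Kp * (n2 * n2) * (P * P + R * P) := by
  have e1 : L1 ^ 3 ≤ (J1 * lam) ^ 3 := pow_le_pow_left₀ h0 h1 3
  have e2 : 12 * L1 ^ 3 * Y ≤ 12 * (J1 * lam) ^ 3 * (c * lam * (P + R)) :=
    mul_le_mul (mul_le_mul_of_nonneg_left e1 (by norm_num)) hY hY0 (by positivity)
  have e3 : 12 * L1 ^ 3 * Y * S ≤ 12 * (J1 * lam) ^ 3 * (c * lam * (P + R)) * (Kp * n2 * P) :=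
    mul_le_mul e2 hS hS0 (by positivity)
  have e4 : 12 * (J1 * lam) ^ 3 * (c * lam * (P + R)) * (Kp * n2 * P) =
      (12 * J1 ^ 3 * c * Kp * n2 * ((P + R) * P)) * lam ^ 4 := by ring
  rw [e4] at e3
  refine e3.trans ?_
  calc (12 * J1 ^ 3 * c * Kp * n2 * ((P + R) * P)) * lam ^ 4 ≤
        (12 * J1 ^ 3 * c * Kp * n2 * ((P + R) * P)) * (Kl * n2) :=
        mul_le_mul_of_nonneg_left hl (by positivity)
    _ = _ := by ring

/-- **Main theorem.** -/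
theorem result (ε C : ℝ) (hε : 0 < ε) (hC : 0 ≤ C) (J : ℕ) :
    ∃ K : ℝ, 1 ≤ K ∧ ∀ N l : ℕ, 1 ≤ N → 1 ≤ l → ∀ (ι : Type) [Fintype ι] (P : ι → Finset ℝ),
      (∀ i, ∀ t ∈ P i, ∀ t' ∈ P i, t ≠ t' → 1 ≤ |t - t'|) →
      (∀ i, ∃ x : ℝ, ∀ t ∈ P i, x ≤ t ∧ t ≤ x + (N : ℝ) ^ l) →
      ∀ h : ℝ, (N : ℝ) ^ J ≤ h →
      ∃ E : Set (ι → ℝ), MeasurableSet E ∧
        volume E ≤ ENNReal.ofReal ((N : ℝ) ^ (-C) * h ^ Fintype.card ι) ∧
        ∀ u : ι → ℝ, (∀ i, u i ∈ Set.Icc 0 h) → u ∉ E → ∀ b : ℕ → ℂ,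
          (∀ n ∈ Icc N (2 * N), ‖b n‖ ≤ 1) → ∀ j : ℕ, l ≤ j → j ≤ J →
            ∑ i, ∑ t ∈ P i, ‖D N b (t + u i)‖ ^ (2 * j) ≤
                K * (N : ℝ) ^ ε * ((N : ℝ) ^ (2 * j) + (∑ i, ((P i).card : ℝ)) * (N : ℝ) ^ j) ∧
            ∀ q : ℝ, 0 < q →
              (2 * j ≤ q ∧ (∑ i, ((P i).card : ℝ)) ≤ (N : ℝ) ^ j ∨ q ≤ 2 * j ∧ (N : ℝ) ^ j ≤ ∑ i, ((P i).card : ℝ)) →
              ∑ i, ∑ t ∈ P i, ‖D N b (t + u i)‖ ^ q ≤
                2 ^ q * K * (N : ℝ) ^ ε * ((N : ℝ) ^ q + (∑ i, ((P i).card : ℝ)) * (N : ℝ) ^ (q / 2)) := by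
  classical
  obtain ⟨Kp, hKp, hpw⟩ := pw_bound (ε / 2) (by positivity) J
  obtain ⟨Kl, hKl, hlog⟩ := log_pow_le (ε / 2) (by positivity)
  have hJ0 : (0 : ℝ) ≤ J := Nat.cast_nonneg _
  have h2J : (1 : ℝ) ≤ 2 ^ J := one_le_pow₀ (by norm_num)
  set A1 : ℝ := 12 * (J + 1) ^ 3 * (1 + 2 ^ J + 2 ^ J * (2 * J + C + 1)) with hA1
  have hA11 : 1 ≤ A1 := by
    have h1 : (1 : ℝ) ≤ ((J : ℝ) + 1) ^ 3 := one_le_pow₀ (by linarith)
    have h2 : (1 : ℝ) ≤ 1 + 2 ^ J + 2 ^ J * (2 * J + C + 1) := by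
      have : (0 : ℝ) ≤ 2 ^ J * (2 * J + C + 1) := by positivity
      linarith
    have h3 : (1 : ℝ) ≤ 12 * (J + 1) ^ 3 := by linarith
    exact one_le_mul_of_one_le_of_one_le h3 h2
  set F : ℝ := A1 * Kl * Kp with hF
  have hF1 : 1 ≤ F := one_le_mul_of_one_le_of_one_le (one_le_mul_of_one_le_of_one_le hA11 hKl) hKp
  refine ⟨2 * F, by linarith, ?_⟩
  intro N l hN hl ι _ P hsep hlen h hh
  have hN1 : (1 : ℝ) ≤ N := by exact_mod_cast hN
  have hN0 : (0 : ℝ) < N := by linarith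
  have h2N : (1 : ℝ) ≤ 2 * N := by linarith
  have hh0 : 0 < h := lt_of_lt_of_le (by positivity) hh
  set R : ℝ := ∑ i, ((P i).card : ℝ) with hR
  have hR0 : 0 ≤ R := sum_nonneg fun _ _ => Nat.cast_nonneg _
  set δ : ℝ := (N : ℝ) ^ (-C) / (J + 1) with hδ
  have hδ0 : 0 < δ := by positivity
  have hex : ∀ j : ℕ, j ∈ Icc l J → ∃ E : Set (ι → ℝ), MeasurableSet E ∧
      volume E ≤ ENNReal.ofReal (δ * h ^ Fintype.card ι) ∧
      ∀ u : ι → ℝ, (∀ i, u i ∈ Set.Icc 0 h) → u ∉ E → ∀ a : ℕ → ℂ,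
        ∑ i, ∑ t ∈ P i, ‖DP ((2 * N) ^ j) a (t + u i)‖ ^ 2 ≤
          12 * (1 + Real.log ((2 * N) ^ j : ℕ)) ^ 3 *
            ((∑ i, ((P i).card : ℝ)) * (1 + ((2 * N) ^ j : ℕ) / h) + ((2 * N) ^ j : ℕ) * Real.log (((2 * N) ^ j : ℕ) / δ)) *
            ∑ n ∈ Icc 1 ((2 * N) ^ j), ‖a n‖ ^ 2 := by
    intro j hj
    rw [mem_Icc] at hj
    apply trans_gen ((2 * N) ^ j) (Nat.one_le_pow _ _ (by omega)) P hsep _ h δ hh0 hδ0
    intro i
    obtain ⟨x, hx⟩ := hlen i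
    refine ⟨x, fun t ht => ⟨(hx t ht).1, (hx t ht).2.trans ?_⟩⟩
    have h1 : N ^ l ≤ (2 * N) ^ j := by
      calc N ^ l ≤ N ^ j := Nat.pow_le_pow_right hN hj.1
        _ ≤ (2 * N) ^ j := Nat.pow_le_pow_left (by omega) j
    have h2 : (N : ℝ) ^ l ≤ (((2 * N) ^ j : ℕ) : ℝ) := by exact_mod_cast h1
    linarith
  choose! E hE1 hE2 hE3 using hex
  refine ⟨⋃ j ∈ Icc l J, E j, Finset.measurableSet_biUnion _ hE1, ?_, ?_⟩
  · refine (measure_biUnion_finset_le _ _).trans ?_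
    refine (Finset.sum_le_sum hE2).trans ?_
    rw [sum_const, Nat.card_Icc, nsmul_eq_mul, ← ENNReal.ofReal_natCast,
      ← ENNReal.ofReal_mul (Nat.cast_nonneg _)]
    apply ENNReal.ofReal_le_ofReal
    have h1 : ((J + 1 - l : ℕ) : ℝ) ≤ J + 1 := by exact_mod_cast (by omega : J + 1 - l ≤ J + 1)
    have h2 : 0 ≤ δ * h ^ Fintype.card ι := by positivity
    calc ((J + 1 - l : ℕ) : ℝ) * (δ * h ^ Fintype.card ι) ≤ (J + 1) * (δ * h ^ Fintype.card ι) :=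
          mul_le_mul_of_nonneg_right h1 h2
      _ = (N : ℝ) ^ (-C) * h ^ Fintype.card ι := by
          rw [hδ]
          field_simp
  · intro u hu huE b hb j hlj hjJ
    have hjI : j ∈ Icc l J := mem_Icc.2 ⟨hlj, hjJ⟩
    have huj : u ∉ E j := fun h => huE (Set.mem_biUnion hjI h)
    have h1 := hE3 j hjI u hu huj (pw (2 * N) (cut N b) j)
    have e1 : ∀ t : ℝ, DP ((2 * N) ^ j) (pw (2 * N) (cut N b) j) t = D N b t ^ j := by
      intro t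
      have h2 := pow_eq (2 * N) (cut N b) t j
      rw [DP_cut N hN b t] at h2
      exact h2.symm
    simp only [e1, norm_pow, ← pow_mul, mul_comm j 2] at h1
    have hjJr : (j : ℝ) ≤ J := by exact_mod_cast hjJ
    set lam : ℝ := 1 + Real.log (2 * N) with hlam
    have hlog0 : 0 ≤ Real.log (2 * N) := Real.log_nonneg h2N
    have hlam1 : 1 ≤ lam := by rw [hlam]; linarith
    have hlM : Real.log (((2 * N) ^ j : ℕ) : ℝ) = j * Real.log (2 * N) := by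
      push_cast
      rw [Real.log_pow]
    have hMle : (((2 * N) ^ j : ℕ) : ℝ) ≤ 2 ^ J * (N : ℝ) ^ j := by
      push_cast
      rw [mul_pow]
      exact mul_le_mul_of_nonneg_right (pow_le_pow_right₀ (by norm_num) hjJ) (by positivity)
    have hM0 : (0 : ℝ) < (((2 * N) ^ j : ℕ) : ℝ) := by positivity
    have hj0 : (0 : ℝ) ≤ j := Nat.cast_nonneg _
    have a1 : 1 + Real.log (((2 * N) ^ j : ℕ) : ℝ) ≤ (J + 1) * lam := by
      rw [hlM, hlam]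
      nlinarith
    have a0 : 0 ≤ 1 + Real.log (((2 * N) ^ j : ℕ) : ℝ) := by
      rw [hlM]
      positivity
    have a2 : 1 + (((2 * N) ^ j : ℕ) : ℝ) / h ≤ 1 + 2 ^ J := by
      have h3 : (((2 * N) ^ j : ℕ) : ℝ) / h ≤ 2 ^ J := by
        rw [div_le_iff₀ hh0]
        calc (((2 * N) ^ j : ℕ) : ℝ) ≤ 2 ^ J * (N : ℝ) ^ j := hMle
          _ ≤ 2 ^ J * (N : ℝ) ^ J :=
              mul_le_mul_of_nonneg_left (pow_le_pow_right₀ hN1 hjJ) (by positivity)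
          _ ≤ 2 ^ J * h := mul_le_mul_of_nonneg_left hh (by positivity)
      linarith
    have a3 : Real.log ((((2 * N) ^ j : ℕ) : ℝ) / δ) ≤ (2 * J + C + 1) * lam := by
      have hJ1 : (0 : ℝ) < J + 1 := by positivity
      have e : Real.log ((((2 * N) ^ j : ℕ) : ℝ) / δ) = j * Real.log (2 * N) + (C * Real.log N + Real.log (J + 1)) := by
        rw [Real.log_div hM0.ne' hδ0.ne', hlM, hδ, Real.log_div (by positivity) hJ1.ne', Real.log_rpow hN0]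
        ring
      rw [e]
      have h3 : Real.log N ≤ Real.log (2 * N) := Real.log_le_log hN0 (by linarith)
      have h4 : Real.log ((J : ℝ) + 1) ≤ J := by
        have := Real.log_le_sub_one_of_pos hJ1
        linarith
      have h5 : C * Real.log N ≤ C * lam := mul_le_mul_of_nonneg_left (by rw [hlam]; linarith) hC
      have h6 : (j : ℝ) * Real.log (2 * N) ≤ J * lam := by
        rw [hlam]
        exact mul_le_mul hjJr (by linarith) hlog0 hJ0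
      nlinarith
    have a4 : (0 : ℝ) ≤ Real.log ((((2 * N) ^ j : ℕ) : ℝ) / δ) := by
      apply Real.log_nonneg
      rw [one_le_div hδ0, hδ]
      have h3 : (N : ℝ) ^ (-C) ≤ 1 := by
        calc (N : ℝ) ^ (-C) ≤ (N : ℝ) ^ (0 : ℝ) := Real.rpow_le_rpow_of_exponent_le hN1 (by linarith)
          _ = 1 := Real.rpow_zero _
      have h4 : (N : ℝ) ^ (-C) / (J + 1) ≤ 1 := by
        rw [div_le_one (by positivity)]
        linarith
      have h5 : (1 : ℝ) ≤ (((2 * N) ^ j : ℕ) : ℝ) := by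
        exact_mod_cast Nat.one_le_pow _ _ (by omega : 0 < 2 * N)
      linarith
    have hev : ∑ i, ∑ t ∈ P i, ‖D N b (t + u i)‖ ^ (2 * j) ≤
        F * (N : ℝ) ^ ε * ((N : ℝ) ^ (2 * j) + R * (N : ℝ) ^ j) := by
      refine h1.trans ?_
      have h3 := hpw N hN b hb j hjJ
      have b2 : R * (1 + (((2 * N) ^ j : ℕ) : ℝ) / h) + (((2 * N) ^ j : ℕ) : ℝ) * Real.log ((((2 * N) ^ j : ℕ) : ℝ) / δ) ≤
          (1 + 2 ^ J + 2 ^ J * (2 * J + C + 1)) * lam * ((N : ℝ) ^ j + R) := by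
        exact aux hR0 (by positivity) (by positivity) (by positivity) (by positivity) a2 hMle a4 a3 hlam1
      have hY0 : 0 ≤ R * (1 + (((2 * N) ^ j : ℕ) : ℝ) / h) +
          (((2 * N) ^ j : ℕ) : ℝ) * Real.log ((((2 * N) ^ j : ℕ) : ℝ) / δ) :=
        add_nonneg (mul_nonneg hR0 (add_nonneg zero_le_one (div_nonneg hM0.le hh0.le))) (mul_nonneg hM0.le a4)
      have hS0 : 0 ≤ ∑ n ∈ Icc 1 ((2 * N) ^ j), ‖pw (2 * N) (cut N b) j n‖ ^ 2 :=
        sum_nonneg fun _ _ => pow_nonneg (norm_nonneg _) 2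
      have hNN : (N : ℝ) ^ (ε / 2) * (N : ℝ) ^ (ε / 2) = (N : ℝ) ^ ε := by
        rw [← Real.rpow_add hN0, add_halves]
      have hPP : (N : ℝ) ^ (2 * j) = (N : ℝ) ^ j * (N : ℝ) ^ j := by rw [← pow_add]; congr 1; ring
      rw [hF, hA1, ← hNN, hPP]
      exact aux2 a0 a1 hY0 b2 hS0 h3 (hlog N hN) (pow_nonneg hN0.le j) hR0 (Real.rpow_nonneg hN0.le _)
        (by linarith) (by linarith) (by linarith) (by positivity)
    have hNε : (1 : ℝ) ≤ (N : ℝ) ^ ε := Real.one_le_rpow hN1 hε.le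
    have hT0 : 0 ≤ (N : ℝ) ^ (2 * j) + R * (N : ℝ) ^ j :=
      add_nonneg (pow_nonneg hN0.le _) (mul_nonneg hR0 (pow_nonneg hN0.le _))
    have hFN : 1 ≤ F * (N : ℝ) ^ ε := one_le_mul_of_one_le_of_one_le hF1 hNε
    refine ⟨?_, ?_⟩
    · refine hev.trans (mul_le_mul_of_nonneg_right ?_ hT0)
      rw [mul_assoc]
      linarith
    · intro q hq hcase
      have hcard : (((univ : Finset ι).sigma P).card : ℝ) = R := by
        rw [card_sigma, hR]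
        push_cast
        rfl
      have h6 := from_even ((univ : Finset ι).sigma P) (fun a => ‖D N b (a.2 + u a.1)‖) (fun _ => norm_nonneg _) N hN
        (fun a _ => D_le N hN b hb _) j (hl.trans hlj) (F * (N : ℝ) ^ ε) hFN (by
          rw [hcard, sum_sigma]
          exact hev) q hq (by rwa [hcard])
      rw [hcard, sum_sigma] at h6
      refine h6.trans (le_of_eq ?_)
      ring

end Pool.Agent.Results.MP_2a1f0e_nt.IndependentTranslations
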