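import Pool.Agent.Results.MP_a93a41_nt.RichIntervals

set_option autoImplicit false

/-!
# Montgomery's `ℓ^q` inequality for the points in rich intervals

Q1 asks for `∑_{1 ≤ t ≤ T} |D(t)|^q ≤ C N^ε (N^q + T N^(q/2))`, `D(t) = ∑_{N ≤ n ≤ 2N} b_n n^{it}`, `|b_n| ≤ 1`.
Cut `{1, ..., T}` into the intervals `[m H, (m + 1) H)`, `H ≥ √T`, and call `t` rich if its interval contains at least
`C (1 + log N)³ N (H + √(N H)) / |D(t)|²` points `u` with `|D(u)| ≥ |D(t)|`. For ALL coefficients and all `q ≥ 2`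
`∑_{t rich} |D(t)|^q ≤ C 4^q (1 + log N)⁴ N^q`: the rich points satisfy the inequality of Q1, even without the term
`T N^(q/2)` and with powers of the logarithm in place of `N^ε`.
-/

namespace Pool.Agent.Results.MP_2a1f0e_nt.RichIntervals

open Finset

/-- `D(t) = ∑_{N ≤ n ≤ 2N} b_n n^{it}` -/
noncomputable def D (N : ℕ) (b : ℕ → ℂ) (t : ℝ) : ℂ :=
  ∑ n ∈ Icc N (2 * N), b n * (n : ℂ) ^ ((t : ℂ) * Complex.I)

open Classical in
/-- the number of the integers `1 ≤ u ≤ T` in the interval `[m H, (m + 1) H)` of `t` with `|D(u)| ≥ |D(t)|` -/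
noncomputable def companions (N T : ℕ) (H : ℝ) (b : ℕ → ℂ) (t : ℕ) : ℕ :=
  ((Icc 1 T).filter (fun u : ℕ => ⌊(u : ℝ) / H⌋₊ = ⌊(t : ℝ) / H⌋₊ ∧ ‖D N b t‖ ≤ ‖D N b u‖)).card

/-- `t` is rich: there are at least `C (1 + log N)³ N (H + √(N H)) / |D(t)|²` such integers -/
def Rich (C : ℝ) (N T : ℕ) (H : ℝ) (b : ℕ → ℂ) (t : ℕ) : Prop :=
  C * (1 + Real.log N) ^ 3 * N * (H + Real.sqrt (N * H)) ≤ ‖D N b t‖ ^ 2 * companions N T H b t

/-- the coefficients on `[1, 2N]`, conjugated -/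
noncomputable def cc (N : ℕ) (b : ℕ → ℂ) (n : ℕ) : ℂ :=
  if N ≤ n ∧ n ≤ 2 * N then (starRingEnd ℂ) (b n) else 0

theorem cc_norm (N : ℕ) (b : ℕ → ℂ) (hb : ∀ n ∈ Icc N (2 * N), ‖b n‖ ≤ 1) (n : ℕ) : ‖cc N b n‖ ≤ 1 := by
  unfold cc
  split_ifs with h
  · rw [Complex.norm_conj]
    exact hb n (mem_Icc.2 h)
  · simp

theorem norm_D (N : ℕ) (hN : 1 ≤ N) (b : ℕ → ℂ) (t : ℝ) :
    ‖D N b t‖ = ‖∑ n ∈ Icc 1 (2 * N), cc N b n * (n : ℂ) ^ (-((t : ℂ) * Complex.I))‖ := by
  have h1 : Icc N (2 * N) = (Icc 1 (2 * N)).filter (fun n => N ≤ n ∧ n ≤ 2 * N) := by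
    ext n
    simp only [mem_Icc, mem_filter]
    omega
  have h2 : (starRingEnd ℂ) (D N b t) = ∑ n ∈ Icc 1 (2 * N), cc N b n * (n : ℂ) ^ (-((t : ℂ) * Complex.I)) := by
    unfold D
    rw [map_sum, h1, sum_filter]
    apply sum_congr rfl
    intro n hn
    rw [mem_Icc] at hn
    unfold cc
    split_ifs with h
    · rw [map_mul]
      congr 1
      have hn0 : (n : ℂ) ≠ 0 := by exact_mod_cast (by omega : n ≠ 0)
      rw [Complex.cpow_def_of_ne_zero hn0, Complex.cpow_def_of_ne_zero hn0, ← Complex.exp_conj]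
      congr 1
      rw [map_mul, ← Complex.natCast_log, Complex.conj_ofReal, map_mul, Complex.conj_ofReal, Complex.conj_I]
      ring
    · simp
  rw [← h2, Complex.norm_conj]

theorem D_le (N : ℕ) (hN : 1 ≤ N) (b : ℕ → ℂ) (hb : ∀ n ∈ Icc N (2 * N), ‖b n‖ ≤ 1) (t : ℝ) :
    ‖D N b t‖ ≤ 2 * N := by
  refine (norm_sum_le _ _).trans ?_
  calc ∑ n ∈ Icc N (2 * N), ‖b n * (n : ℂ) ^ ((t : ℂ) * Complex.I)‖ ≤ ∑ n ∈ Icc N (2 * N), (1 : ℝ) := by
        apply sum_le_sum
        intro n hn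
        have hn1 : 0 < n := lt_of_lt_of_le hN (mem_Icc.1 hn).1
        rw [norm_mul, Complex.norm_natCast_cpow_of_pos hn1]
        simp only [Complex.mul_re, Complex.ofReal_re, Complex.I_re, mul_zero, Complex.ofReal_im, Complex.I_im,
          mul_one, sub_self, Real.rpow_zero]
        exact hb n hn
    _ = ((2 * N + 1 - N : ℕ) : ℝ) := by simp
    _ ≤ 2 * N := by exact_mod_cast (by omega : 2 * N + 1 - N ≤ 2 * N)

open Classical in
theorem companions_le (N T : ℕ) (H : ℝ) (hH : 1 ≤ H) (b : ℕ → ℂ) (t : ℕ) : (companions N T H b t : ℝ) ≤ 2 * H := by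
  have hH0 : 0 < H := by linarith
  set m : ℕ := ⌊(t : ℝ) / H⌋₊ with hm
  have h1 : companions N T H b t ≤ ⌈((m : ℝ) + 1) * H⌉₊ - ⌈(m : ℝ) * H⌉₊ := by
    unfold companions
    rw [← Nat.card_Ico]
    apply card_le_card
    intro u hu
    rw [mem_filter] at hu
    have h2 := hu.2.1
    rw [← hm, Nat.floor_eq_iff (by positivity)] at h2
    rw [mem_Ico]
    constructor
    · rw [Nat.ceil_le]
      have := h2.1
      rwa [le_div_iff₀ hH0] at this
    · rw [Nat.lt_ceil]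
      have := h2.2
      rwa [div_lt_iff₀ hH0] at this
  have h2 : (companions N T H b t : ℝ) ≤ ((⌈((m : ℝ) + 1) * H⌉₊ - ⌈(m : ℝ) * H⌉₊ : ℕ) : ℝ) := by exact_mod_cast h1
  have h3 : ⌈(m : ℝ) * H⌉₊ ≤ ⌈((m : ℝ) + 1) * H⌉₊ := Nat.ceil_mono (by nlinarith)
  rw [Nat.cast_sub h3] at h2
  have h4 : (⌈((m : ℝ) + 1) * H⌉₊ : ℝ) < ((m : ℝ) + 1) * H + 1 := Nat.ceil_lt_add_one (by positivity)
  have h5 : (m : ℝ) * H ≤ ⌈(m : ℝ) * H⌉₊ := Nat.le_ceil _
  linarith

open Classical in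
/-- **Main theorem.** -/
theorem result : ∃ C : ℝ, 1 ≤ C ∧ ∀ (N T : ℕ) (H : ℝ) (b : ℕ → ℂ), 1 ≤ N → 1 ≤ H → (T : ℝ) ≤ H ^ 2 →
    (∀ n ∈ Icc N (2 * N), ‖b n‖ ≤ 1) → ∀ q : ℝ, 2 ≤ q →
      ∑ t ∈ (Icc 1 T).filter (fun t => Rich C N T H b t), ‖D N b t‖ ^ q ≤
        C * 4 ^ q * (1 + Real.log N) ^ 4 * (N : ℝ) ^ q := by
  obtain ⟨C0, hC0, h0⟩ := Pool.Agent.Results.MP_a93a41_nt.RichIntervals.result
  have hlog2 : Real.log 2 ≤ 1 := by
    have := Real.log_two_lt_d9
    linarith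
  set C : ℝ := 128 * (C0 + 1) with hC
  have hC1 : 1 ≤ C := by rw [hC]; linarith
  refine ⟨C, hC1, ?_⟩
  intro N T H b hN hH hT hb q hq
  have hN1 : (1 : ℝ) ≤ N := by exact_mod_cast hN
  have hN0 : (0 : ℝ) < N := by linarith
  have hH0 : 0 < H := by linarith
  have hlN : 0 ≤ Real.log N := Real.log_nonneg hN1
  set L : ℝ := 1 + Real.log N with hL
  have hL1 : 1 ≤ L := by rw [hL]; linarith
  have hL2 : 1 + Real.log ((2 * N : ℕ) : ℝ) ≤ 2 * L := by
    push_cast
    rw [Real.log_mul (by norm_num) hN0.ne', hL]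
    linarith
  have hL20 : 0 ≤ 1 + Real.log ((2 * N : ℕ) : ℝ) := by
    have : 0 ≤ Real.log ((2 * N : ℕ) : ℝ) := Real.log_nonneg (by push_cast; linarith)
    linarith
  have hL3 : (1 + Real.log ((2 * N : ℕ) : ℝ)) ^ 3 ≤ (2 * L) ^ 3 := pow_le_pow_left₀ hL20 hL2 3
  set d : ℕ → ℝ := fun t => ‖D N b t‖ with hd
  have hd0 : ∀ t, 0 ≤ d t := fun t => norm_nonneg _
  have hsq0 : 0 ≤ Real.sqrt (N * H) := Real.sqrt_nonneg _
  set K : ℝ := C * L ^ 3 * N * (H + Real.sqrt (N * H)) with hK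
  set W : Finset ℕ := (Icc 1 T).filter (fun t => Rich C N T H b t) with hW
  have hKpos : 0 < K := by positivity
  have hL3' : 1 ≤ L ^ 3 := one_le_pow₀ hL1
  -- level sets
  have hlev : ∀ V : ℝ, 0 < V → ((W.filter (fun t => V ≤ d t ∧ d t < 2 * V)).card : ℝ) ≤
      32 * (C0 + 1) * L ^ 3 * N ^ 2 / V ^ 2 := by
    intro V hV
    set S : Finset ℕ := (Icc 1 T).filter (fun t => V ≤ d t) with hS
    set SR : Finset ℝ := S.image (fun t : ℕ => (t : ℝ)) with hSR
    set r : ℕ := ⌈K / (4 * V ^ 2)⌉₊ with hr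
    have hinj : Function.Injective (fun t : ℕ => (t : ℝ)) := Nat.cast_injective
    have hrV : K / 4 ≤ r * V ^ 2 := by
      have h2 : K / (4 * V ^ 2) ≤ r := Nat.le_ceil _
      rw [div_le_iff₀ (by positivity)] at h2
      linarith
    have hK4 : C0 * (1 + Real.log ((2 * N : ℕ) : ℝ)) ^ 3 * ((2 * N : ℕ) : ℝ) *
          (H + Real.sqrt (((2 * N : ℕ) : ℝ) * H)) ≤ K / 4 := by
      have h5 : Real.sqrt (((2 * N : ℕ) : ℝ) * H) ≤ 2 * Real.sqrt (N * H) := by
        have e4 : Real.sqrt (4 * (N * H)) = 2 * Real.sqrt (N * H) := by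
          rw [Real.sqrt_mul (by norm_num : (0 : ℝ) ≤ 4)]
          congr 1
          rw [show (4 : ℝ) = 2 ^ 2 by norm_num]
          exact Real.sqrt_sq (by norm_num)
        rw [← e4]
        apply Real.sqrt_le_sqrt
        push_cast
        nlinarith
      calc C0 * (1 + Real.log ((2 * N : ℕ) : ℝ)) ^ 3 * ((2 * N : ℕ) : ℝ) *
            (H + Real.sqrt (((2 * N : ℕ) : ℝ) * H))
          ≤ C0 * (2 * L) ^ 3 * ((2 * N : ℕ) : ℝ) * (2 * (H + Real.sqrt (N * H))) := by
            apply mul_le_mul _ (by linarith) (by positivity) (by positivity)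
            apply mul_le_mul_of_nonneg_right _ (by positivity)
            exact mul_le_mul_of_nonneg_left hL3 hC0.le
        _ = C0 * (32 * (L ^ 3 * N * (H + Real.sqrt (N * H)))) := by
            push_cast
            ring
        _ ≤ (C0 + 1) * (32 * (L ^ 3 * N * (H + Real.sqrt (N * H)))) :=
            mul_le_mul_of_nonneg_right (by linarith) (by positivity)
        _ = K / 4 := by rw [hK, hC]; ring
    have h1 := h0 (2 * N) r T H V (cc N b) SR (by omega) hH hT hV (cc_norm N b hb) (by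
      intro t ht
      rw [hSR, mem_image] at ht
      obtain ⟨t, ht, rfl⟩ := ht
      rw [hS, mem_filter, mem_Icc] at ht
      refine ⟨Nat.cast_nonneg _, by exact_mod_cast ht.1.2, ?_⟩
      rw [← norm_D N hN b t]
      exact ht.2) (by
      intro t ht u hu htu
      rw [hSR, mem_image] at ht hu
      obtain ⟨t, ht, rfl⟩ := ht
      obtain ⟨u, hu, rfl⟩ := hu
      have h2 : (t : ℤ) ≠ u := fun h => htu (by exact_mod_cast h)
      have h3 : 1 ≤ |(t : ℤ) - u| := Int.one_le_abs (sub_ne_zero.2 h2)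
      exact_mod_cast h3) (hK4.trans hrV)
    have hfib : ∀ t : ℕ, (SR.filter (fun u => ⌊u / H⌋₊ = ⌊(t : ℝ) / H⌋₊)).card =
        (S.filter (fun u : ℕ => ⌊(u : ℝ) / H⌋₊ = ⌊(t : ℝ) / H⌋₊)).card := by
      intro t
      rw [hSR, filter_image, card_image_of_injective _ hinj]
    have h2 : (W.filter (fun t => V ≤ d t ∧ d t < 2 * V)).card ≤
        (SR.filter (fun t => r ≤ (SR.filter (fun u => ⌊u / H⌋₊ = ⌊t / H⌋₊)).card)).card := by
      rw [hSR, filter_image, card_image_of_injective _ hinj]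
      apply card_le_card
      intro t ht
      rw [mem_filter] at ht ⊢
      obtain ⟨ht1, ht2, ht3⟩ := ht
      rw [hW, mem_filter] at ht1
      refine ⟨?_, ?_⟩
      · rw [hS, mem_filter]
        exact ⟨ht1.1, ht2⟩
      · rw [← hSR, hfib t]
        have hrich : K ≤ d t ^ 2 * companions N T H b t := ht1.2
        have h3 : companions N T H b t ≤ (S.filter (fun u : ℕ => ⌊(u : ℝ) / H⌋₊ = ⌊(t : ℝ) / H⌋₊)).card := by
          unfold companions
          apply card_le_card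
          intro u hu
          rw [mem_filter] at hu ⊢
          rw [hS, mem_filter]
          exact ⟨⟨hu.1, ht2.trans hu.2.2⟩, hu.2.1⟩
        refine le_trans ?_ h3
        rw [hr, Nat.ceil_le, div_le_iff₀ (by positivity)]
        refine hrich.trans ?_
        have h4 : d t ^ 2 ≤ 4 * V ^ 2 := by
          calc d t ^ 2 ≤ (2 * V) ^ 2 := pow_le_pow_left₀ (hd0 t) ht3.le 2
            _ = 4 * V ^ 2 := by ring
        calc d t ^ 2 * companions N T H b t ≤ 4 * V ^ 2 * companions N T H b t :=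
              mul_le_mul_of_nonneg_right h4 (Nat.cast_nonneg _)
          _ = _ := by ring
    have h3 : ((W.filter (fun t => V ≤ d t ∧ d t < 2 * V)).card : ℝ) ≤
        C0 * (1 + Real.log ((2 * N : ℕ) : ℝ)) ^ 3 * ((2 * N : ℕ) : ℝ) ^ 2 / V ^ 2 :=
      le_trans (by exact_mod_cast h2) h1
    refine h3.trans ?_
    apply div_le_div_of_nonneg_right _ (by positivity)
    calc C0 * (1 + Real.log ((2 * N : ℕ) : ℝ)) ^ 3 * ((2 * N : ℕ) : ℝ) ^ 2
        ≤ (C0 + 1) * (2 * L) ^ 3 * ((2 * N : ℕ) : ℝ) ^ 2 := by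
          apply mul_le_mul_of_nonneg_right _ (by positivity)
          exact mul_le_mul (by linarith) hL3 (pow_nonneg hL20 3) (by linarith)
      _ = 32 * (C0 + 1) * L ^ 3 * N ^ 2 := by
          push_cast
          ring
  -- rich points have large values
  have hd1 : ∀ t ∈ W, 1 ≤ d t := by
    intro t ht
    rw [hW, mem_filter] at ht
    have hrich : K ≤ d t ^ 2 * companions N T H b t := ht.2
    by_contra hcon
    push Not at hcon
    have h1 : d t ^ 2 ≤ 1 := pow_le_one₀ (hd0 t) hcon.le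
    have h2 := companions_le N T H hH b t
    have h3 : d t ^ 2 * (companions N T H b t : ℝ) ≤ 1 * (2 * H) :=
      mul_le_mul h1 h2 (Nat.cast_nonneg _) (by norm_num)
    have h4 : 128 * H ≤ K := by
      rw [hK]
      have h5 : (128 : ℝ) ≤ C := by rw [hC]; linarith
      have h6 : (128 : ℝ) ≤ C * L ^ 3 := by nlinarith
      have h7 : (128 : ℝ) ≤ C * L ^ 3 * N := by nlinarith
      exact mul_le_mul h7 (by linarith) hH0.le (by linarith)
    linarith
  -- dyadic decomposition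
  set J : ℕ := Nat.log 2 (2 * N) with hJ
  have hq0 : 0 < q := by linarith
  have hdy : ∑ t ∈ W, d t ^ q ≤ ∑ i ∈ range (J + 1), ∑ t ∈ W.filter (fun t => (2 : ℝ) ^ i ≤ d t ∧ d t < 2 * 2 ^ i), d t ^ q := by
    have h1 : ∀ t ∈ W, d t ^ q ≤ ∑ i ∈ range (J + 1), if ((2 : ℝ) ^ i ≤ d t ∧ d t < 2 * 2 ^ i) then d t ^ q else 0 := by
      intro t ht
      have ht1 := hd1 t ht
      set f : ℕ := ⌊d t⌋₊ with hf
      have hf1 : 1 ≤ f := Nat.le_floor (by exact_mod_cast ht1)
      have hfd : (f : ℝ) ≤ d t := Nat.floor_le (hd0 t)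
      have hdf : d t < f + 1 := Nat.lt_floor_add_one _
      set i : ℕ := Nat.log 2 f with hi
      have hi1 : 2 ^ i ≤ f := Nat.pow_log_le_self 2 (by omega)
      have hi2 : f < 2 ^ (i + 1) := Nat.lt_pow_succ_log_self (by norm_num) f
      have hfN : f ≤ 2 * N := by
        have h2 : (f : ℝ) ≤ ((2 * N : ℕ) : ℝ) := by
          push_cast
          exact hfd.trans (D_le N hN b hb t)
        exact_mod_cast h2
      have hiJ : i ∈ range (J + 1) := by
        rw [mem_range]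
        have := Nat.log_mono_right (b := 2) hfN
        omega
      have hc : (2 : ℝ) ^ i ≤ d t ∧ d t < 2 * 2 ^ i := by
        constructor
        · refine le_trans ?_ hfd
          exact_mod_cast hi1
        · have h2 : (f : ℝ) + 1 ≤ 2 * 2 ^ i := by
            have h3 : f + 1 ≤ 2 * 2 ^ i := by
              rw [pow_succ] at hi2
              omega
            exact_mod_cast h3
          linarith
      calc d t ^ q = if ((2 : ℝ) ^ i ≤ d t ∧ d t < 2 * 2 ^ i) then d t ^ q else 0 := by rw [if_pos hc]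
        _ ≤ _ := single_le_sum (f := fun i => if ((2 : ℝ) ^ i ≤ d t ∧ d t < 2 * 2 ^ i) then d t ^ q else 0)
            (fun j _ => by
              split_ifs
              · exact Real.rpow_nonneg (hd0 t) _
              · exact le_rfl) hiJ
    refine (sum_le_sum h1).trans ?_
    rw [sum_comm]
    apply sum_le_sum
    intro i _
    exact (sum_filter (s := W) (fun t => (2 : ℝ) ^ i ≤ d t ∧ d t < 2 * 2 ^ i) (fun t => d t ^ q)).symm.le
  have hterm : ∀ i ∈ range (J + 1), ∑ t ∈ W.filter (fun t => (2 : ℝ) ^ i ≤ d t ∧ d t < 2 * 2 ^ i), d t ^ q ≤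
      8 * (C0 + 1) * 4 ^ q * L ^ 3 * (N : ℝ) ^ q := by
    intro i hi
    rw [mem_range] at hi
    set V : ℝ := 2 ^ i with hV
    have hV1 : 1 ≤ V := one_le_pow₀ (by norm_num)
    have hV0 : 0 < V := by linarith
    have hVN : V ≤ 2 * N := by
      have h1 : 2 ^ i ≤ 2 * N := by
        calc 2 ^ i ≤ 2 ^ J := Nat.pow_le_pow_right (by norm_num) (by omega)
          _ ≤ 2 * N := Nat.pow_log_le_self 2 (by omega)
      rw [hV]
      exact_mod_cast h1
    have h2 : ∑ t ∈ W.filter (fun t => V ≤ d t ∧ d t < 2 * V), d t ^ q ≤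
        ((W.filter (fun t => V ≤ d t ∧ d t < 2 * V)).card : ℝ) * (2 * V) ^ q := by
      rw [← nsmul_eq_mul]
      apply sum_le_card_nsmul
      intro t ht
      exact Real.rpow_le_rpow (hd0 t) (mem_filter.1 ht).2.2.le hq0.le
    refine h2.trans ?_
    have h3 := hlev V hV0
    have h4 : V ^ q ≤ V ^ 2 * (2 * (N : ℝ)) ^ (q - 2) := by
      calc V ^ q = V ^ (2 : ℝ) * V ^ (q - 2) := by
            rw [← Real.rpow_add hV0]
            congr 1
            ring
        _ ≤ V ^ (2 : ℝ) * (2 * (N : ℝ)) ^ (q - 2) := by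
            apply mul_le_mul_of_nonneg_left _ (by positivity)
            exact Real.rpow_le_rpow hV0.le hVN (by linarith)
        _ = _ := by
            congr 1
            exact_mod_cast Real.rpow_natCast V 2
    have e1 : (2 * (N : ℝ)) ^ (q - 2) = 2 ^ q / 4 * ((N : ℝ) ^ q / N ^ 2) := by
      rw [Real.mul_rpow (by norm_num) hN0.le, Real.rpow_sub (by norm_num), Real.rpow_sub hN0]
      norm_num
    have e2 : (2 * V) ^ q = 2 ^ q * V ^ q := Real.mul_rpow (by norm_num) hV0.le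
    have e3 : (4 : ℝ) ^ q = 2 ^ q * 2 ^ q := by
      rw [← Real.mul_rpow (by norm_num) (by norm_num)]
      norm_num
    calc ((W.filter (fun t => V ≤ d t ∧ d t < 2 * V)).card : ℝ) * (2 * V) ^ q
        ≤ (32 * (C0 + 1) * L ^ 3 * N ^ 2 / V ^ 2) * (2 ^ q * (V ^ 2 * (2 * (N : ℝ)) ^ (q - 2))) := by
          rw [e2]
          apply mul_le_mul h3 _ (by positivity) (by positivity)
          exact mul_le_mul_of_nonneg_left h4 (by positivity)
      _ = 8 * (C0 + 1) * (2 ^ q * 2 ^ q) * L ^ 3 * (N : ℝ) ^ q := by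
          rw [e1]
          field_simp
          ring
      _ = _ := by rw [e3]
  have hJL : (J : ℝ) + 1 ≤ 4 * L := by
    have h1 : J = Nat.log 2 N + 1 := by
      rw [hJ, mul_comm, Nat.log_mul_base (by norm_num) (by omega)]
    have h2 : (Nat.log 2 N : ℝ) ≤ Real.log N / Real.log 2 := by
      have h := Real.natLog_le_logb N 2
      rwa [Real.logb, Nat.cast_ofNat] at h
    have h3 : (1 : ℝ) / 2 ≤ Real.log 2 := by
      have := Real.log_two_gt_d9
      linarith
    have h4 : Real.log N / Real.log 2 ≤ 2 * Real.log N := by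
      rw [div_le_iff₀ (by linarith)]
      nlinarith
    rw [h1, hL]
    push_cast
    linarith
  calc ∑ t ∈ W, d t ^ q ≤ _ := hdy
    _ ≤ ∑ _i ∈ range (J + 1), 8 * (C0 + 1) * 4 ^ q * L ^ 3 * (N : ℝ) ^ q := sum_le_sum hterm
    _ = ((J : ℝ) + 1) * (8 * (C0 + 1) * 4 ^ q * L ^ 3 * (N : ℝ) ^ q) := by
        rw [sum_const, card_range, nsmul_eq_mul]
        push_cast
        ring
    _ ≤ (4 * L) * (8 * (C0 + 1) * 4 ^ q * L ^ 3 * (N : ℝ) ^ q) :=
        mul_le_mul_of_nonneg_right hJL (by positivity)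
    _ = 32 * (C0 + 1) * (4 ^ q * L ^ 4 * (N : ℝ) ^ q) := by ring
    _ ≤ C * (4 ^ q * L ^ 4 * (N : ℝ) ^ q) := by
        apply mul_le_mul_of_nonneg_right _ (by positivity)
        rw [hC]
        linarith
    _ = C * 4 ^ q * L ^ 4 * (N : ℝ) ^ q := by ring

end Pool.Agent.Results.MP_2a1f0e_nt.RichIntervals
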